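import Pool.Agent.R417.FE.NF
import Pool.Agent.Y802.GC.NF

/-!
# Self-conjugate unramified representations and the eigenvalues of one automorphism

Let `F` be a number field, `K/F` a Galois extension (finite or not) and `p` a prime, `p = 2`
included. Let `G` be the Galois group of the maximal extension of `K` in which no finite and no
real place of `K` ramifies and `V` the space of the continuous homomorphisms from `G` to `ℤ/p`
(if `K` is a number field, this is by class field theory the dual of the class group of `K` modulo
`p`). Let `σ` be an element of the absolute Galois group of `F` and let `P ∈ ℤ[X]` be monic with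
`P(σ) = 0` on `V`, for example a lift of the minimal polynomial of `σ` on `V`. Let `n` be such
that no product of `r` roots of `P` modulo `p`, `1 ≤ r ≤ n` (repetitions allowed), is equal to `1`;
this holds for example for `n < f (p - 1)` if `P` has degree `f` and a root modulo `p` of order
`p ^ f - 1`. Let `A` be a noetherian local domain with finite residue field of characteristic `p`
and `ρ : G → GL_n(A)` a continuous homomorphism, unipotent modulo the maximal ideal, which is
isomorphic to its conjugate by `σ`, for example the restriction of a representation of the absolute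
Galois group of `F`. Then all products of `n` matrices `ρ g - 1` are zero. In particular `ρ` is
trivial if it is semisimple over the field of fractions of `A`, or if `A` has characteristic zero
and the finite abelian `p`-quotients of `G` have bounded exponent (the class group of `K` is
finite).
-/

set_option autoImplicit false

open NumberField IsLocalRing Polynomial

namespace Pool.Agent.Results.MP_ca71b5_nt.EigenvalueCriterion

/-- The homomorphism `f` from the absolute Galois group of `K` to a group `E` is unramified at all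
finite and real places. At the finite places: for every maximal ideal `P` of the ring of all
algebraic integers, the inertia group at `P` in the absolute Galois group of `K` is mapped to `1`.
At the real places: all complex conjugations, that is, all elements of order two of the absolute
Galois group, are mapped to `1`. -/
def Unramified {F : Type} [Field F] {K : IntermediateField F (AlgebraicClosure F)}
    {E : Type} [Group E] (f : K.fixingSubgroup →* E) : Prop :=
  (∀ P : Ideal (𝓞 (AlgebraicClosure F)), P.IsMaximal → ∀ τ : K.fixingSubgroup,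
    (∀ x : 𝓞 (AlgebraicClosure F), (τ : Gal(AlgebraicClosure F/F)) • x - x ∈ P) → f τ = 1) ∧
  ∀ τ : K.fixingSubgroup, τ * τ = 1 → f τ = 1

/-- `p ^ e` kills the Galois group of every unramified finite abelian extension of `K` of `p`-power
degree. -/
def AbelianExponent {F : Type} [Field F] (K : IntermediateField F (AlgebraicClosure F))
    (p e : ℕ) : Prop :=
  ∀ (E : Type) [CommGroup E] [Finite E], IsPGroup p E → ∀ f : K.fixingSubgroup →* E,
    IsOpen (f.ker : Set K.fixingSubgroup) → Unramified f → ∀ g, f g ^ (p ^ e) = 1

/-- `P(σ) = 0` on the space `V` of all unramified homomorphisms `f` with open kernel from the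
absolute Galois group of `K` to `ℤ/p`, where `σ` maps `f` to `g ↦ f (σ g σ⁻¹)`. -/
def Kills {F : Type} [Field F] [CharZero F] (K : IntermediateField F (AlgebraicClosure F))
    [IsGalois F K] (p : ℕ) (σ : Gal(AlgebraicClosure F/F)) (P : ℤ[X]) : Prop :=
  ∀ f : K.fixingSubgroup →* Multiplicative (ZMod p), IsOpen (f.ker : Set K.fixingSubgroup) →
    Unramified f → ∀ g : K.fixingSubgroup,
      ∑ k ∈ Finset.range (P.natDegree + 1), (P.coeff k : ZMod p) *
        Multiplicative.toAdd (f (MulAut.conjNormal (σ ^ k) g)) = 0

/-- No product of `r` roots of `P` in an algebraic closure of `ℤ/p`, `1 ≤ r ≤ n`, is `1`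
(repetitions are allowed). -/
def NoProduct (p : ℕ) [Fact p.Prime] (n : ℕ) (P : ℤ[X]) : Prop :=
  ∀ t : Multiset (AlgebraicClosure (ZMod p)), t ≠ 0 → t.card ≤ n →
    (∀ r ∈ t, aeval r P = 0) → t.prod ≠ 1

/-- `P` has degree `f`, it has a root of order `p ^ f - 1` in an algebraic closure of `ℤ/p`, and
`n < f (p - 1)`. -/
def Primitive (p : ℕ) [Fact p.Prime] (n : ℕ) (P : ℤ[X]) : Prop :=
  n < P.natDegree * (p - 1) ∧
    ∃ ζ : AlgebraicClosure (ZMod p), aeval ζ P = 0 ∧ orderOf ζ = p ^ P.natDegree - 1

/-- Every `ρ g` is unipotent modulo the maximal ideal: some power of `ρ g - 1` has all entries in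
the maximal ideal. -/
def ResiduallyUnipotent {G A : Type} [Group G] [CommRing A] [IsLocalRing A] {n : ℕ}
    (ρ : G →* GL (Fin n) A) : Prop :=
  ∀ g, ∃ M : ℕ, ∀ i j, (((ρ g : Matrix (Fin n) (Fin n) A) - 1) ^ M) i j ∈ maximalIdeal A

/-- The space `W` over the field of fractions of `A` is stable under `ρ`. -/
def Stable {G A : Type} [Group G] [CommRing A] [IsDomain A] {n : ℕ} (ρ : G →* GL (Fin n) A)
    (W : Submodule (FractionRing A) (Fin n → FractionRing A)) : Prop :=
  ∀ g, ∀ w ∈ W,
    ((ρ g : Matrix (Fin n) (Fin n) A).map (algebraMap A (FractionRing A))).mulVec w ∈ W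

/-- `ρ` is semisimple over the field of fractions of `A`: every stable subspace has a stable
complement. -/
def Semisimple {G A : Type} [Group G] [CommRing A] [IsDomain A] {n : ℕ}
    (ρ : G →* GL (Fin n) A) : Prop :=
  ∀ W, Stable ρ W → ∃ W', IsCompl W W' ∧ Stable ρ W'

theorem result (p : ℕ) [Fact p.Prime] (F : Type) [Field F] [NumberField F]
    (K : IntermediateField F (AlgebraicClosure F)) [IsGalois F K]
    (σ : Gal(AlgebraicClosure F/F)) (P : ℤ[X]) (hP : P.Monic) (hkill : Kills K p σ P) (n : ℕ)
    (hprod : NoProduct p n P ∨ Primitive p n P)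
    (A : Type) [CommRing A] [IsDomain A] [IsLocalRing A] [IsNoetherianRing A] [TopologicalSpace A]
    (hA : IsAdic (maximalIdeal A)) (hfin : Finite (ResidueField A)) (hp : (p : A) ∈ maximalIdeal A)
    (ρ : K.fixingSubgroup →* GL (Fin n) A) (hρ : Continuous ρ) (hur : Unramified ρ)
    (hres : ResiduallyUnipotent ρ)
    (hself : ∃ T : GL (Fin n) A, ∀ g : K.fixingSubgroup,
      ρ (MulAut.conjNormal σ g) = T * ρ g * T⁻¹) :
    (∀ g : Fin n → K.fixingSubgroup,
      (List.ofFn fun t => (ρ (g t) : Matrix (Fin n) (Fin n) A) - 1).prod = 0) ∧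
    (Semisimple ρ → ∀ g, ρ g = 1) ∧
    ((p : A) ≠ 0 → (∃ e, AbelianExponent K p e) → ∀ g, ρ g = 1) := by
  obtain ⟨T, hT⟩ := hself
  have hnp : Pool.Agent.R417.FE.NoProd p n P := by
    rcases hprod with h | ⟨h1, ζ, h2, h3⟩
    · exact h
    · exact Pool.Agent.R417.FE.noProd_primitive h1 hP rfl h2 h3
  set Ur : Set K.fixingSubgroup :=
    Pool.Agent.Y802.GC.UrN ∅ K.fixingSubgroup ∪ {τ | τ * τ = 1} with hUr
  have key : ∀ (E : Type) [Group E] (f : K.fixingSubgroup →* E),
      (∀ τ ∈ Ur, f τ = 1) ↔ Unramified f := by
    intro E _ f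
    constructor
    · intro h
      exact ⟨fun P hP τ hτ => h τ (Or.inl ⟨P, hP, Set.notMem_empty _, hτ⟩),
        fun τ hτ => h τ (Or.inr hτ)⟩
    · rintro h τ (⟨P, hP, -, hτ⟩ | hτ)
      · exact h.1 P hP τ hτ
      · exact h.2 τ hτ
  have hnil := Pool.Agent.R417.FE.absNil hA hfin hp Ur
    (fun g : K.fixingSubgroup => MulAut.conjNormal σ g) (MulAut.conjNormal σ).surjective P hP hnp
    (fun f hf hfu g => by
      have h1 := hkill f hf ((key _ f).1 hfu) g
      rw [← h1]
      refine Finset.sum_congr rfl fun k _ => ?_
      rw [Pool.Agent.R417.FE.iterate_conj])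
    ρ hρ ((key _ ρ).2 hur) T hT hres
  refine ⟨fun g => ?_, fun hss g => ?_, fun hp0 he => ?_⟩
  · have h1 := Pool.Agent.R417.FE.prod_mem_pow
      (fun g : K.fixingSubgroup => (ρ g : Matrix (Fin n) (Fin n) A) - 1) n g
    rw [hnil, Submodule.mem_bot] at h1
    exact h1
  · have h1 : (Submodule.span A (Set.range fun g : (⊤ : Subgroup K.fixingSubgroup) =>
        (ρ g : Matrix (Fin n) (Fin n) A) - 1)) ^ n = ⊥ := by
      rw [← hnil]
      congr 2
      ext x
      constructor
      · rintro ⟨g, rfl⟩
        exact ⟨g.1, rfl⟩
      · rintro ⟨g, rfl⟩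
        exact ⟨⟨g, Subgroup.mem_top g⟩, rfl⟩
    exact Pool.Agent.R417.FA.trivial_of_semisimple (Λ := FractionRing A)
      (IsFractionRing.injective A (FractionRing A)) ⊤ ρ h1 (fun W hW => hss W hW)
      ⟨g, Subgroup.mem_top g⟩
  · obtain ⟨e, he⟩ := he
    exact Pool.Agent.R417.FE.triv_of_nil hA hfin hp hp0 Ur
      (fun E _ _ hE f hf hfu g => he E hE f hf ((key E f).1 hfu) g) ρ hρ ((key _ ρ).2 hur) n hnil

end Pool.Agent.Results.MP_ca71b5_nt.EigenvalueCriterion
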