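import Mathlib
import Pool.Agent.R384.Z.Unf

/-!
# The potentially unramified Fontaine–Mazur conjecture in the `2`-extensions of `ℚ(√-d)` unramified
# outside `2`

Let `k = ℚ(√-d)`, where `d` is a prime number that is `7` modulo `16`. Let `L ⊇ k` be a field contained
in a finite Galois extension `M / k` of degree a power of `2`, unramified outside `2`; there is no
condition on the structure of the Galois group of `M / k`, and `L / k` need not be Galois.

Let `A` be a Noetherian local ring with finite residue field of characteristic `2`, for example
`A = ℤ_2`, and let `ρ : G_L → GL_n(A)` be a continuous representation, `n` arbitrary, which is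
residually unipotent (all `ρ(σ)` are unipotent modulo the maximal ideal; this is true if the image of
`ρ` is pro-`2`) and unramified outside `2`.

Theorem: if the images of the inertia groups at the places above `2` are finite, then the image of `ρ`
is finite. In particular every representation of the Galois group of the maximal unramified
pro-`2`-extension of `L` has finite image (here the inertia groups act trivially).

Proof. The decomposition groups at the two places of `k` above `2` are dense in the maximal pro-`2`
quotient of `G_k` unramified outside `2`, so that the images of the inertia groups in its finite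
quotients are normal; and they generate these quotients because `k` has no quadratic extension which is
unramified everywhere.
-/

set_option autoImplicit false

namespace Pool.Agent.Results.MP_ca71b5_nt.PotentiallyUnramified

open Matrix IsLocalRing

/-- An algebraic closure of `ℚ`. -/
abbrev QBar : Type := AlgebraicClosure ℚ

/-- The field `ℚ(s)`. It is `ℚ(√-d)` if `s² = -d`. -/
noncomputable abbrev K (s : QBar) : IntermediateField ℚ QBar := IntermediateField.adjoin ℚ {s}

/-- The absolute Galois group of `ℚ(s)`. -/
def Gal (s : QBar) : Type := QBar ≃ₐ[K s] QBar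

/-- its group structure -/
noncomputable instance instGroupGal (s : QBar) : Group (Gal s) := AlgEquiv.aut (R := K s) (A₁ := QBar)

/-- its Krull topology -/
noncomputable instance instTopGal (s : QBar) : TopologicalSpace (Gal s) := krullTopology (K s) QBar

/-- The action of the Galois group on `ℚ̄`. -/
noncomputable def app {s : QBar} (σ : Gal s) (x : QBar) : QBar := (show QBar ≃ₐ[K s] QBar from σ) x

/-- The inertia group of the place given by the embedding `ι` of `ℚ̄`: the automorphisms in the
decomposition group which are trivial on the residue field. -/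
def Inr {s : QBar} {p : ℕ} [Fact p.Prime] (ι : QBar →ₐ[ℚ] PadicAlgCl p) : Set (Gal s) :=
  {σ | ∃ τ : PadicAlgCl p ≃ₐ[ℚ_[p]] PadicAlgCl p, (∀ x, τ (ι x) = ι (app σ x)) ∧
    ∀ z : PadicAlgCl p, ‖z‖ ≤ 1 → ‖τ z - z‖ < 1}

/-- `N` is the Galois group of `ℚ̄ / M` for a finite Galois extension `M / ℚ(s)` whose degree is a
power of `2` and which is unramified outside `2`: `N` is a normal open subgroup of index a power of
`2` and contains the inertia groups of the odd primes. -/
structure TwoExtension {s : QBar} (N : Subgroup (Gal s)) : Prop where
  isOpen : IsOpen (N : Set (Gal s))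
  normal : N.Normal
  index : ∃ a : ℕ, N.index = 2 ^ a
  unramified : ∀ (p : ℕ) [Fact p.Prime] (ι : QBar →ₐ[ℚ] PadicAlgCl p), p ≠ 2 →
    ∀ σ ∈ (Inr ι : Set (Gal s)), σ ∈ N

/-- The representation `ρ` of the absolute Galois group `H` of `L` is continuous, residually
unipotent and unramified outside `2`. -/
structure Admissible {s : QBar} {H : Subgroup (Gal s)} {A : Type} [CommRing A] [IsLocalRing A]
    [TopologicalSpace A] {n : ℕ} (ρ : H →* GL (Fin n) A) : Prop where
  cont : ∀ i j, Continuous fun σ => (ρ σ : Matrix (Fin n) (Fin n) A) i j
  unipotent : ∀ σ, ∃ m : ℕ, ∀ i j,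
    (((ρ σ : Matrix (Fin n) (Fin n) A) - 1) ^ m) i j ∈ maximalIdeal A
  unramified : ∀ (p : ℕ) [Fact p.Prime] (ι : QBar →ₐ[ℚ] PadicAlgCl p), p ≠ 2 →
    ∀ σ : H, (σ : Gal s) ∈ Inr ι → ρ σ = 1

/-- **Potentially unramified representations of `G_L` have finite image.** -/
theorem result : ∀ d : ℕ, d.Prime → d % 16 = 7 → ∀ s : QBar, s ^ 2 = -(d : QBar) →
    ∀ H N : Subgroup (Gal s), N ≤ H → TwoExtension N →
    ∀ (A : Type) [CommRing A] [IsLocalRing A] [IsNoetherianRing A] [TopologicalSpace A],
      IsAdic (maximalIdeal A) → Finite (ResidueField A) → (2 : A) ∈ maximalIdeal A →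
    ∀ (n : ℕ) (ρ : H →* GL (Fin n) A), Admissible ρ →
      (∀ ι : QBar →ₐ[ℚ] PadicAlgCl 2, (ρ '' {σ : H | (σ : Gal s) ∈ Inr ι}).Finite) →
        (Set.range ρ).Finite := by
  intro d hd hd16 s hs H N hNH hN A _ _ _ _ hA hfin h2 n ρ hρ hI
  exact Pool.Agent.Z384.finU hs hd hd16 hNH hN.normal hN.index hN.isOpen hN.unramified hA hfin h2
    hρ.cont hρ.unipotent hρ.unramified hI

end Pool.Agent.Results.MP_ca71b5_nt.PotentiallyUnramified
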