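import Pool.Agent.Results.MP_ca71b5_nt.RankTwoExtensions
import Pool.Agent.R338.CU.Wild

/-!
# Everywhere unramified representations of rank two over random number fields

`p = 3`. The starting result `RankTwoExtensions` gives an explicit condition on the cubic residue
symbols of the primes in a finite set `S` under which every continuous, residually unipotent
`ρ : Gal(ℚbar/ℚ) → GL_2(A)`, which is everywhere unramified over some number field `K` unramified
outside `S`, has finite image. We show that it holds for a positive proportion of all `S` with two,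
three or four elements `≡ 1` modulo `3`.
-/

set_option autoImplicit false

open NumberField Matrix IsLocalRing Finset
open scoped Classical

namespace Pool.Agent.Results.MP_ca71b5_nt.RandomCubic

open Pool.Agent.Results.MP_ca71b5_nt.RankTwoExtensions (FieldUnramifiedOutside UnramifiedOver
  ResiduallyUnipotent Tame linking NoPlane)

/-- For all number fields `K` which are unramified outside `S`, for all discrete valuation rings
`A` of characteristic `0` with finite residue field of characteristic `3` (with exactly three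
elements if `Small` holds), with the adic topology, every continuous
`ρ : Gal(ℚbar/ℚ) → GL_2(A)`, residually unipotent, whose restriction to the absolute Galois group
of `K` is unramified at all finite primes, has finite image. -/
def AlwaysFinite (Small : Prop) (S : Finset ℕ) : Prop :=
  ∀ (K : IntermediateField ℚ (AlgebraicClosure ℚ)) [FiniteDimensional ℚ K],
    FieldUnramifiedOutside S K →
  ∀ (A : Type) [CommRing A] [IsDomain A] [IsDiscreteValuationRing A] [CharZero A]
    [TopologicalSpace A], IsAdic (maximalIdeal A) → Finite (ResidueField A) →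
    (3 : A) ∈ maximalIdeal A → (Small → Nat.card (ResidueField A) = 3) →
  ∀ ρ : Gal(AlgebraicClosure ℚ/ℚ) →* GL (Fin 2) A, Continuous ρ → UnramifiedOver K ρ →
    ResiduallyUnipotent ρ → (Set.range ρ).Finite

/-- `P 0, …, P (r - 1)` are pairwise disjoint sets of primes congruent to `1` modulo `3`, the
members of `P i` are at most `X i`, and `1 ≤ z ≤ X i`. -/
def Sets (r : ℕ) (P : Fin r → Finset ℕ) (X : Fin r → ℕ) (z : ℕ) : Prop :=
  1 ≤ z ∧ (∀ i, z ≤ X i) ∧ (∀ i, ∀ p ∈ P i, p.Prime ∧ p % 3 = 1 ∧ p ≤ X i) ∧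
    ∀ i l, i ≠ l → Disjoint (P i) (P l)

/-- The number of the tuples `(p_0, …, p_{r-1})`, `p_i ∈ P i`, with the property `good`. -/
noncomputable def count {r : ℕ} (P : Fin r → Finset ℕ) (good : Finset ℕ → Prop) : ℝ :=
  ({p : Fin r → ℕ | (∀ i, p i ∈ P i) ∧ good (univ.image p)}.ncard : ℝ)

/-- At least the proportion `s` of the tuples have the property `good`, up to
`C z ^ (-1/12) ∏ X i`. -/
def AtLeast {r : ℕ} (s C : ℝ) (P : Fin r → Finset ℕ) (X : Fin r → ℕ) (z : ℕ)
    (good : Finset ℕ → Prop) : Prop :=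
  s * ∏ i, ((P i).card : ℝ) - C * (z : ℝ) ^ (-(1 / 12 : ℝ)) * ∏ i, (X i : ℝ) ≤ count P good

/-- The `r × r` matrices over `ℤ/3` such that any two vectors `x`, `y` with
`x_i ∑_j α_ji y_j = y_i ∑_j α_ji x_j` for all `i` are linearly dependent. -/
def NoCup (r : ℕ) (α : Fin r → Fin r → ZMod 3) : Prop :=
  ∀ x y : Fin r → ZMod 3, (∀ i, x i * ∑ j, α j i * y j = y i * ∑ j, α j i * x j) →
    ∀ i j, x i * y j = x j * y i

/-- The proportion of the matrices with `NoCup` among all matrices with zero diagonal. -/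
noncomputable def share (r : ℕ) : ℝ :=
  ({α : Fin r → Fin r → ZMod 3 | (∀ i, α i i = 0) ∧ NoCup r α}.ncard : ℝ) / 3 ^ (r * (r - 1))

/-! ### The criterion -/

section crit

open Pool.Agent.R338.CU

theorem tame_eq {T S' : Finset ℕ} (hT : ∀ l ∈ T, l.Prime ∧ l % 3 = 1)
    (hS' : ∀ l ∈ S', l.Prime ∧ l % 3 = 2) : Tame 3 (T ∪ S') = T := by
  ext l
  simp only [Tame, mem_filter, mem_union]
  constructor
  · rintro ⟨h | h, h3⟩
    · exact h
    · have h2 := (hS' l h).2
      have := (hS' l h).1.one_lt
      omega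
  · intro h
    have h2 := (hT l h).2
    have := (hT l h).1.one_lt
    exact ⟨Or.inl h, by omega⟩

theorem tame_eq' {T S' : Finset ℕ} (hT : ∀ l ∈ T, l.Prime ∧ l % 3 = 1)
    (hS' : ∀ l ∈ S', l.Prime ∧ l % 3 = 2) : Tame 3 (insert 3 (T ∪ S')) = T := by
  have h : Tame 3 (insert 3 (T ∪ S')) = Tame 3 (T ∪ S') := by
    unfold Tame
    rw [filter_insert, if_neg (by decide)]
  rw [h, tame_eq hT hS']

theorem char_res {A : Type} [CommRing A] [IsDomain A] [IsDiscreteValuationRing A]
    (h : (3 : A) ∈ maximalIdeal A) : CharP (ResidueField A) 3 :=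
  TH831.OE.charP_res Nat.prime_three (by exact_mod_cast h)

theorem crit {Small : Prop} {T : Finset ℕ} (hT : ∀ l ∈ T, l.Prime ∧ l % 3 = 1)
    (h : ∀ (F : Type) [Field F] [Finite F] [CharP F 3], (Small → Nat.card F = 3) →
      TH831.OE.NI F T (fun l j => lnk F j l (chi j)))
    {S' : Finset ℕ} (hS' : ∀ l ∈ S', l.Prime ∧ l % 3 = 2) : AlwaysFinite Small (T ∪ S') := by
  intro K _ hK A _ _ _ _ _ hA hfin h3 hcard ρ hρ hur hres
  have hc := char_res h3
  have hTame := tame_eq hT hS'
  refine Pool.Agent.Results.MP_ca71b5_nt.RankTwoExtensions.result 3 (by decide) (T ∪ S')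
    (fun l hl => ?_) K hK A hA hfin (by exact_mod_cast h3) ρ hρ hur hres
    (Or.inl ⟨chi, fun l hl => ?_, ?_⟩)
  · rcases mem_union.1 hl with hl | hl
    · exact (hT l hl).1
    · exact (hS' l hl).1
  · rw [hTame] at hl
    exact chi_ne (hT l hl).1 (hT l hl).2
  · intro x y a b hab hxy _
    have h3S : (3 : ℕ) ∉ T ∪ S' := by
      rw [mem_union]
      rintro (h | h)
      · have := (hT 3 h).2
        omega
      · have := (hS' 3 h).2
        omega
    obtain ⟨rfl, rfl⟩ := hab h3S
    rw [hTame] at hxy ⊢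
    obtain ⟨c, d, hcd, h7⟩ := h (ResidueField A) hcard x y fun l hl => by
      have := hxy l hl
      rw [mul_zero, add_zero, add_zero] at this
      exact this
    exact ⟨c, d, hcd, by rw [mul_zero, mul_zero], h7⟩

theorem critW {Small : Prop} {T : Finset ℕ} (hT : ∀ l ∈ T, l.Prime ∧ l % 3 = 1)
    (h : ∀ (F : Type) [Field F] [Finite F] [CharP F 3], TH831.OE.NI F (insert 1 T) (lamW F))
    {S' : Finset ℕ} (hS' : ∀ l ∈ S', l.Prime ∧ l % 3 = 2) :
    AlwaysFinite Small (insert 3 (T ∪ S')) := by
  intro K _ hK A _ _ _ _ _ hA hfin h3 _ ρ hρ hur hres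
  have hc := char_res h3
  have hTame := tame_eq' hT hS'
  have h1T : (1 : ℕ) ∉ T := fun h1 => (hT 1 h1).1.ne_one rfl
  refine Pool.Agent.Results.MP_ca71b5_nt.RankTwoExtensions.result 3 (by decide)
    (insert 3 (T ∪ S')) (fun l hl => ?_) K hK A hA hfin (by exact_mod_cast h3) ρ hρ hur hres
    (Or.inl ⟨chi, fun l hl => ?_, ?_⟩)
  · rcases mem_insert.1 hl with rfl | hl
    · exact Nat.prime_three
    rcases mem_union.1 hl with hl | hl
    · exact (hT l hl).1
    · exact (hS' l hl).1
  · rw [hTame] at hl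
    exact chi_ne (hT l hl).1 (hT l hl).2
  · intro x y a b _ hxy hab
    rw [hTame] at hxy hab ⊢
    -- the sums
    have hs : ∀ (l : ℕ) (w : ℕ → ResidueField A) (c : ResidueField A),
        ∑ j ∈ insert 1 T, lamW (ResidueField A) l j * (if j = 1 then c else w j) =
          (((l - 1) / 3 : ℕ) : ResidueField A) * c +
            ∑ j ∈ T, linking (ResidueField A) j (if l = 1 then 3 else l) (chi j) * w j := by
      intro l w c
      have e1 : lamW (ResidueField A) l 1 * (if (1 : ℕ) = 1 then c else w 1) =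
          (((l - 1) / 3 : ℕ) : ResidueField A) * c := by
        unfold lamW
        rw [if_pos rfl, if_pos rfl]
      rw [sum_insert h1T, e1]
      refine congrArg _ (sum_congr rfl fun j hj => ?_)
      have hj1 : j ≠ 1 := fun h' => h1T (h' ▸ hj)
      unfold lamW
      rw [if_neg hj1, if_neg hj1]
      rfl
    obtain ⟨c, d, hcd, h7⟩ := h (ResidueField A) (fun j => if j = 1 then a else x j)
      (fun j => if j = 1 then b else y j) (by
        intro l hl
        simp only [hs]
        rcases mem_insert.1 hl with rfl | hl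
        · simp only [if_true, Nat.sub_self, Nat.zero_div, Nat.cast_zero, zero_mul, zero_add]
          exact hab
        · have hl1 : l ≠ 1 := fun h' => h1T (h' ▸ hl)
          simp only [if_neg hl1]
          have := hxy l hl
          rw [add_comm, add_comm (((l - 1) / 3 : ℕ) * a : ResidueField A)]
          exact this)
    refine ⟨c, d, hcd, ?_, fun l hl => ?_⟩
    · have := h7 1 (mem_insert_self _ _)
      simpa using this
    · have hl1 : l ≠ 1 := fun h' => h1T (h' ▸ hl)
      have := h7 l (mem_insert_of_mem hl)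
      simpa [hl1] using this

theorem count_eq {r : ℕ} (P : Fin r → Finset ℕ) (good : Finset ℕ → Prop) :
    count P good = (((Fintype.piFinset P).filter fun p => good (univ.image p)).card : ℝ) := by
  unfold count
  rw [← Set.ncard_coe_finset]
  congr 2
  ext p
  simp

theorem img {r : ℕ} {p : Fin r → ℕ} (hp : Tup p) : ∀ l ∈ univ.image p, l.Prime ∧ l % 3 = 1 := by
  intro l hl
  obtain ⟨i, -, rfl⟩ := mem_image.1 hl
  exact ⟨hp.pr i, hp.m3 i⟩

end crit

/-- **A positive proportion of all sets of ramified primes.** There is a constant `C` such that for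
all disjoint sets `P 0, …, P (r - 1)` of primes `≡ 1` modulo `3` as in `Sets`, up to
`C 3 ^ (r (r - 1)) z ^ (-1/12) ∏ X i`, we have `AlwaysFinite` for `{p_0, …, p_{r-1}} ∪ S'`, with
any finite set `S'` of primes `≡ 2` modulo `3`,
(1) for at least `share r` of the tuples, for coefficients with residue field `𝔽_3`;
(2) for at least `8/9` of the pairs;
(3) for at least `112/243` of the triples.
(4) If `r = 2`, if `3` is not a cube modulo the members of `P 0`, and if the members of `P 1` are
congruent to `4` or `7` modulo `9`, then for at least `2/3` of the pairs we have `AlwaysFinite` for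
`{3, p_0, p_1} ∪ S'`.
(5) `share 4 > 0`; the absolute Galois group has infinite quotients, of degrees powers of `3`,
unramified outside any set of four primes `≡ 1` modulo `3` (Golod and Shafarevich, not proved
here). -/
theorem result : ∃ C : ℝ,
    (∀ (r : ℕ) (P : Fin r → Finset ℕ) (X : Fin r → ℕ) (z : ℕ), Sets r P X z →
      AtLeast (share r) (C * 3 ^ (r * (r - 1))) P X z fun T =>
        ∀ S' : Finset ℕ, (∀ l ∈ S', l.Prime ∧ l % 3 = 2) → AlwaysFinite True (T ∪ S')) ∧
    (∀ (P : Fin 2 → Finset ℕ) (X : Fin 2 → ℕ) (z : ℕ), Sets 2 P X z →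
      AtLeast (8 / 9) C P X z fun T =>
        ∀ S' : Finset ℕ, (∀ l ∈ S', l.Prime ∧ l % 3 = 2) → AlwaysFinite False (T ∪ S')) ∧
    (∀ (P : Fin 3 → Finset ℕ) (X : Fin 3 → ℕ) (z : ℕ), Sets 3 P X z →
      AtLeast (112 / 243) C P X z fun T =>
        ∀ S' : Finset ℕ, (∀ l ∈ S', l.Prime ∧ l % 3 = 2) → AlwaysFinite False (T ∪ S')) ∧
    (∀ (P : Fin 2 → Finset ℕ) (X : Fin 2 → ℕ) (z : ℕ), Sets 2 P X z →
      (∀ p ∈ P 0, ∀ x : ZMod p, x ^ 3 ≠ 3) → (∀ p ∈ P 1, p % 9 = 4 ∨ p % 9 = 7) →
      AtLeast (2 / 3) C P X z fun T =>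
        ∀ S' : Finset ℕ, (∀ l ∈ S', l.Prime ∧ l % 3 = 2) →
          AlwaysFinite False (insert 3 (T ∪ S'))) ∧
    0 < share 4 := by
  obtain ⟨C, hC1, hC⟩ := Pool.Agent.R338.CU.main_lower
  obtain ⟨C', hC1', hC'⟩ := Pool.Agent.R338.CU.cls_lower
  set D : ℝ := max (729 * C) (729 * C') with hD
  have hD1 : 729 * C ≤ D := le_max_left _ _
  have hD2 : 729 * C' ≤ D := le_max_right _ _
  -- a weaker error term
  have weak : ∀ {r : ℕ} {P : Fin r → Finset ℕ} {X : Fin r → ℕ} {z : ℕ} {s c c' : ℝ}
      {good : Finset ℕ → Prop}, c ≤ c' → s * ∏ i, ((P i).card : ℝ) -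
        c * ((z : ℝ) ^ (-(1 / 12 : ℝ)) * ∏ i, (X i : ℝ)) ≤
          (((Fintype.piFinset P).filter fun p => good (univ.image p)).card : ℝ) →
      AtLeast s c' P X z good := by
    intro r P X z s c c' good hcc h
    unfold AtLeast
    rw [count_eq]
    refine le_trans ?_ h
    have h0 : 0 ≤ (z : ℝ) ^ (-(1 / 12 : ℝ)) * ∏ i, (X i : ℝ) := by positivity
    have := mul_le_mul_of_nonneg_right hcc h0
    rw [mul_assoc c']
    linarith
  have toS : ∀ {r : ℕ} {P : Fin r → Finset ℕ} {X : Fin r → ℕ} {z : ℕ}, Sets r P X z →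
      Pool.Agent.R338.CU.Sets P X z := fun h => ⟨h.1, h.2.1, h.2.2.1, h.2.2.2⟩
  refine ⟨D, fun r P X z hS => ?_, fun P X z hS => ?_, fun P X z hS => ?_, fun P X z hS hP0 hP1 => ?_, ?_⟩
  · refine weak (c := 3 ^ (r * (r - 1)) * C) ?_ ?_
    · rw [mul_comm]
      refine mul_le_mul_of_nonneg_right ?_ (by positivity)
      linarith
    · have h1 := hC r P X z (toS hS)
        (fun α => Pool.Agent.R338.CU.Good (Pool.Agent.Y703.CX.ext α)) (share r)
        (le_of_eq (Pool.Agent.R338.CU.share_eq r)) (fun p => ∀ S' : Finset ℕ,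
          (∀ l ∈ S', l.Prime ∧ l % 3 = 2) → AlwaysFinite True (univ.image p ∪ S'))
        (fun p hp hQ S' hS' => by
          have ht := (toS hS).tup hp
          rw [Pool.Agent.R338.CU.ext_mat] at hQ
          exact crit (img ht)
            (fun F _ _ _ hF => Pool.Agent.R338.CU.ni_r (hF trivial) ht hQ) hS')
      rw [mul_assoc] 
      rw [mul_assoc C] at h1
      exact h1
  · refine weak (c := 9 * C) (by linarith) ?_
    have h1 := hC 2 P X z (toS hS) Pool.Agent.R338.CU.Q2 (8 / 9) Pool.Agent.R338.CU.q2_le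
      (fun p => ∀ S' : Finset ℕ,
          (∀ l ∈ S', l.Prime ∧ l % 3 = 2) → AlwaysFinite False (univ.image p ∪ S'))
      (fun p hp hQ S' hS' => by
          have ht := (toS hS).tup hp
          exact crit (img ht) (fun F _ _ _ hF => Pool.Agent.R338.CU.ni2 ht hQ) hS')
    refine le_trans (le_of_eq ?_) h1
    norm_num
    ring
  · refine weak (c := 729 * C) (by linarith) ?_
    have h1 := hC 3 P X z (toS hS) Pool.Agent.R338.CU.Q3 (112 / 243) Pool.Agent.R338.CU.q3_le
      (fun p => ∀ S' : Finset ℕ,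
          (∀ l ∈ S', l.Prime ∧ l % 3 = 2) → AlwaysFinite False (univ.image p ∪ S'))
      (fun p hp hQ S' hS' => by
          have ht := (toS hS).tup hp
          exact crit (img ht) (fun F _ _ _ hF => Pool.Agent.R338.CU.ni3 ht hQ) hS')
    refine le_trans (le_of_eq ?_) h1
    norm_num
    ring
  · refine weak (c := 729 * C') (by linarith) ?_
    have h1 := hC' 2 P X z (toS hS) (ZMod 3 × ZMod 3) Pool.Agent.R338.CU.cl
      Pool.Agent.R338.CU.QW (2 / 3)
      (fun u hu => Pool.Agent.R338.CU.qW_le (by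
        obtain ⟨q, hq, hu⟩ := hu 0
        rw [← hu]
        exact Pool.Agent.R338.CU.cl_snd (hS.2.2.1 0 q hq).1 (hS.2.2.1 0 q hq).2.1 (hP0 q hq)) (by
        obtain ⟨q, hq, hu⟩ := hu 1
        rw [← hu]
        exact Pool.Agent.R338.CU.cl_fst (hP1 q hq)))
      (fun p => ∀ S' : Finset ℕ,
          (∀ l ∈ S', l.Prime ∧ l % 3 = 2) → AlwaysFinite False (insert 3 (univ.image p ∪ S')))
      (fun p hp hQ S' hS' => by
          have ht := (toS hS).tup hp
          exact critW (img ht) (fun F _ _ _ => Pool.Agent.R338.CU.niW ht hQ) hS')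
    refine le_trans (le_of_eq ?_) h1
    rw [Fintype.card_prod, ZMod.card]
    norm_num
    ring
  · unfold share
    refine div_pos ?_ (by positivity)
    rw [Nat.cast_pos, Set.ncard_pos (Set.toFinite _)]
    exact ⟨Pool.Agent.R338.CU.exm, by decide, Pool.Agent.R338.CU.good_exm⟩

end Pool.Agent.Results.MP_ca71b5_nt.RandomCubic
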